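import Pool.Agent.Q183.AR.LW

/-!
# MP_4eb8d9_nt: products of powers of linear recurrences
-/

set_option autoImplicit false

namespace Pool.Agent.Results.MP_4eb8d9_nt.AlongRecurrences

open Pool.Agent.Q183.AR

variable {k m : ℕ}

/-- the product of the powers `α l ^ (v l * t)` of fixed integers and of the powers `a i (t) ^ b i`
of the members `a i (t)` of sequences -/
def Lam (α v : Fin k → ℤ) (a : Fin m → ℕ → ℤ) (b : Fin m → ℤ) (t : ℕ) : ℚ :=
  (∏ l, (α l : ℚ) ^ (v l * t)) * ∏ i, (a i t : ℚ) ^ b i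

/-- the largest absolute value of an exponent -/
def expMax (v : Fin k → ℤ) (b : Fin m → ℤ) (t : ℕ) : ℕ :=
  max (Finset.univ.sup fun l => (v l * t).natAbs) (Finset.univ.sup fun i => (b i).natAbs)

/-- the product of the absolute values of the exponents and of the bases -/
def size (α v : Fin k → ℤ) (a : Fin m → ℕ → ℤ) (b : Fin m → ℤ) (t : ℕ) : ℝ :=
  (∏ l, (|((v l * t : ℤ) : ℝ)| * |(α l : ℝ)|)) * ∏ i, (|(b i : ℝ)| * |(a i t : ℝ)|)

theorem zpow_split {x : ℚ} (hx : x ≠ 0) (v : ℤ) : x ^ v = x ^ v.toNat / x ^ (-v).toNat := by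
  have h1 : v = (v.toNat : ℤ) - ((-v).toNat : ℤ) := by omega
  conv_lhs => rw [h1]
  rw [zpow_sub₀ hx, zpow_natCast, zpow_natCast]

theorem zpow_split' {x : ℚ} (hx : x ≠ 0) (v : ℤ) (t : ℕ) :
    x ^ (v * t) = (x ^ v.toNat) ^ t / (x ^ (-v).toNat) ^ t := by
  rw [zpow_mul, zpow_natCast, zpow_split hx, div_pow]

theorem Lam_eq {α v : Fin k → ℤ} (hα : ∀ l, α l ≠ 0) {a : Fin m → ℕ → ℤ} {b : Fin m → ℤ} {t : ℕ}
    (ht : ∀ i, a i t ≠ 0) : Lam α v a b t =
      (((∏ l, α l ^ (v l).toNat) ^ t * ∏ i, a i t ^ (b i).toNat : ℤ) : ℚ) /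
        (((∏ l, α l ^ (-v l).toNat) ^ t * ∏ i, a i t ^ (-b i).toNat : ℤ) : ℚ) := by
  unfold Lam
  have h1 : ∏ l, (α l : ℚ) ^ (v l * t) =
      (∏ l, (α l : ℚ) ^ (v l).toNat) ^ t / (∏ l, (α l : ℚ) ^ (-v l).toNat) ^ t := by
    rw [← Finset.prod_pow, ← Finset.prod_pow, ← Finset.prod_div_distrib]
    exact Finset.prod_congr rfl fun l _ => zpow_split' (by exact_mod_cast hα l) _ _
  have h2 : ∏ i, (a i t : ℚ) ^ b i =
      (∏ i, (a i t : ℚ) ^ (b i).toNat) / ∏ i, (a i t : ℚ) ^ (-b i).toNat := by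
    rw [← Finset.prod_div_distrib]
    exact Finset.prod_congr rfl fun i _ => zpow_split (by exact_mod_cast ht i) _
  rw [h1, h2]
  push_cast
  rw [div_mul_div_comm]

theorem expMax_le {v : Fin k → ℤ} (hv : ∀ l, v l ≠ 0) {b : Fin m → ℤ} (hb : ∀ i, b i ≠ 0) {t : ℕ}
    (ht : 1 ≤ t) : (expMax v b t : ℝ) ≤
      (∏ l, |((v l * t : ℤ) : ℝ)|) * ∏ i, |(b i : ℝ)| := by
  have h1 : ∀ l, 1 ≤ (v l * t).natAbs := fun l => Int.natAbs_pos.2 (mul_ne_zero (hv l) (by
    exact_mod_cast (by omega : t ≠ 0)))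
  have h2 : ∀ i, 1 ≤ (b i).natAbs := fun i => Int.natAbs_pos.2 (hb i)
  have h3 : expMax v b t ≤ (∏ l, (v l * t).natAbs) * ∏ i, (b i).natAbs := by
    unfold expMax
    have h4 : 1 ≤ ∏ l, (v l * t).natAbs := Finset.one_le_prod' fun l _ => h1 l
    have h5 : 1 ≤ ∏ i, (b i).natAbs := Finset.one_le_prod' fun i _ => h2 i
    refine max_le (Finset.sup_le fun l _ => ?_) (Finset.sup_le fun i _ => ?_)
    · calc (v l * t).natAbs ≤ ∏ l, (v l * t).natAbs :=
            Finset.single_le_prod' (f := fun l => (v l * t).natAbs) (fun l _ => h1 l) (Finset.mem_univ l)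
        _ ≤ _ := Nat.le_mul_of_pos_right _ h5
    · calc (b i).natAbs ≤ ∏ i, (b i).natAbs :=
            Finset.single_le_prod' (f := fun i => (b i).natAbs) (fun i _ => h2 i) (Finset.mem_univ i)
        _ ≤ _ := Nat.le_mul_of_pos_left _ h4
  calc (expMax v b t : ℝ) ≤ (((∏ l, (v l * t).natAbs) * ∏ i, (b i).natAbs : ℕ) : ℝ) := by
        exact_mod_cast h3
    _ = _ := by
      push_cast
      congr 1
      · exact Finset.prod_congr rfl fun l _ => by
          rw [Nat.cast_natAbs]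
          push_cast
          rfl
      · exact Finset.prod_congr rfl fun i _ => by
          rw [Nat.cast_natAbs]
          push_cast
          rfl

theorem result (k m : ℕ) (α v : Fin k → ℤ) (hα : ∀ l, α l ≠ 0) (hv : ∀ l, v l ≠ 0)
    (a : Fin m → ℕ → ℤ) (ha : ∀ i, ∃ E : LinearRecurrence ℤ, E.IsSolution (a i))
    (b : Fin m → ℤ) (hb : ∀ i, b i ≠ 0) :
    ∃ M : ℕ, 0 < M ∧ ∀ ρ : ℕ,
      (∃ (w : ℚ) (z : ℕ), ∀ t, z ≤ t → t ≡ ρ [MOD M] → (∃ i, a i t = 0) ∨ Lam α v a b t = w) ∨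
      ∃ (c : ℝ) (T z : ℕ), 0 < c ∧ ∀ t, z ≤ t → ∃ s, t ≤ s ∧ s < t + T ∧ s ≡ ρ [MOD M] ∧
        (∀ i, a i s ≠ 0) ∧ Lam α v a b s ≠ 1 ∧
        c / ∏ i, |(a i s : ℝ)| ≤ |((Lam α v a b s : ℚ) : ℝ) - 1| ∧
        c * expMax v b s / size α v a b s ≤ |((Lam α v a b s : ℚ) : ℝ) - 1| := by
  classical
  set p := ∏ l, α l ^ (v l).toNat with hp
  set q := ∏ l, α l ^ (-v l).toNat with hq
  have hp0 : p ≠ 0 := Finset.prod_ne_zero_iff.2 fun l _ => pow_ne_zero _ (hα l)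
  have hq0 : q ≠ 0 := Finset.prod_ne_zero_iff.2 fun l _ => pow_ne_zero _ (hα l)
  obtain ⟨M, hM, h⟩ := two a ha p q hp0 hq0 (fun i => (b i).toNat) (fun i => (-b i).toNat)
    (fun i => by have := hb i; omega)
  refine ⟨M, hM, fun ρ => ?_⟩
  rcases h ρ with ⟨u, w, z, huw, h1⟩ | ⟨C, T, z, hC, h1⟩
  · left
    refine ⟨(w : ℚ) / u, z, fun t ht htm => ?_⟩
    by_cases h0 : ∃ i, a i t = 0
    · exact Or.inl h0
    push Not at h0
    right
    have h2 := h1 t ht htm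
    have h3 : p ^ t * ∏ i, a i t ^ (b i).toNat ≠ 0 := mul_ne_zero (pow_ne_zero _ hp0)
      (Finset.prod_ne_zero_iff.2 fun i _ => pow_ne_zero _ (h0 i))
    have h4 : q ^ t * ∏ i, a i t ^ (-b i).toNat ≠ 0 := mul_ne_zero (pow_ne_zero _ hq0)
      (Finset.prod_ne_zero_iff.2 fun i _ => pow_ne_zero _ (h0 i))
    have h5 : u ≠ 0 := by
      rintro rfl
      rw [zero_mul] at h2
      rcases mul_eq_zero.1 h2.symm with h6 | h6
      · rcases huw with h7 | h7
        · exact h7 rfl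
        · exact h7 h6
      · exact h4 h6
    rw [Lam_eq hα h0, div_eq_div_iff (by exact_mod_cast h4) (by exact_mod_cast h5)]
    have h6 := congrArg (fun n : ℤ => (n : ℚ)) h2
    simp only [Int.cast_mul u, Int.cast_mul w] at h6
    rw [mul_comm, h6]
  · right
    refine ⟨1 / C, T, max z 1, by positivity, fun t ht => ?_⟩
    obtain ⟨s, h2, h3, h4, h5, h6, h7, h8⟩ := h1 t ((le_max_left _ _).trans ht)
    have hs1 : 1 ≤ s := ((le_max_right _ _).trans ht).trans h2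
    set A := p ^ s * ∏ i, a i s ^ (b i).toNat with hA
    set B := q ^ s * ∏ i, a i s ^ (-b i).toNat with hB
    set P := ∏ i, |(a i s : ℝ)| with hP
    have hP0 : 0 < P := Finset.prod_pos fun i _ => abs_pos.2 (by exact_mod_cast h5 i)
    have hB0 : B ≠ 0 := mul_ne_zero (pow_ne_zero _ hq0)
      (Finset.prod_ne_zero_iff.2 fun i _ => pow_ne_zero _ (h5 i))
    have hBr : (B : ℝ) ≠ 0 := by exact_mod_cast hB0
    have hL : Lam α v a b s = (A : ℚ) / (B : ℚ) := Lam_eq hα h5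
    have hL' : ((Lam α v a b s : ℚ) : ℝ) - 1 = ((A - B : ℤ) : ℝ) / (B : ℝ) := by
      rw [hL]
      push_cast
      field_simp
    have hne : Lam α v a b s ≠ 1 := by
      rw [hL]
      intro h9
      rw [div_eq_one_iff_eq (by exact_mod_cast hB0)] at h9
      exact h6 (by exact_mod_cast h9)
    have hmain : 1 / C / P ≤ |((Lam α v a b s : ℚ) : ℝ) - 1| := by
      rw [hL', abs_div, div_div, le_div_iff₀ (abs_pos.2 hBr), one_div, inv_mul_le_iff₀ (by positivity)]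
      calc |(B : ℝ)| ≤ C * |((A - B : ℤ) : ℝ)| * P := h8
        _ = _ := by ring
    refine ⟨s, h2, h3, h4, h5, hne, hmain, le_trans ?_ hmain⟩
    have hE := expMax_le hv hb hs1
    have hS : size α v a b s = ((∏ l, |((v l * s : ℤ) : ℝ)|) * ∏ i, |(b i : ℝ)|) *
        ((∏ l, |(α l : ℝ)|) * P) := by
      unfold size
      rw [Finset.prod_mul_distrib, Finset.prod_mul_distrib]
      ring
    have hα1 : 1 ≤ ∏ l, |(α l : ℝ)| := by
      refine le_trans (le_of_eq (Finset.prod_const_one).symm)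
        (Finset.prod_le_prod (fun _ _ => zero_le_one) fun l _ => ?_)
      have h9 : (1 : ℤ) ≤ |α l| := Int.one_le_abs (hα l)
      exact_mod_cast h9
    set Q := (∏ l, |((v l * s : ℤ) : ℝ)|) * ∏ i, |(b i : ℝ)| with hQ
    have hQ0 : 0 < Q := mul_pos (Finset.prod_pos fun l _ => abs_pos.2 (by
      have h9 : v l * (s : ℤ) ≠ 0 := mul_ne_zero (hv l) (by exact_mod_cast (by omega : s ≠ 0))
      exact_mod_cast h9))
      (Finset.prod_pos fun i _ => abs_pos.2 (by exact_mod_cast hb i))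
    rw [hS, div_le_div_iff₀ (by positivity) hP0]
    have h9 : (expMax v b s : ℝ) ≤ Q * ∏ l, |(α l : ℝ)| :=
      hE.trans (le_mul_of_one_le_right hQ0.le hα1)
    calc 1 / C * (expMax v b s : ℝ) * P ≤ 1 / C * (Q * ∏ l, |(α l : ℝ)|) * P := by
          refine mul_le_mul_of_nonneg_right (mul_le_mul_of_nonneg_left h9 (by positivity)) hP0.le
      _ = 1 / C * (Q * ((∏ l, |(α l : ℝ)|) * P)) := by ring

end Pool.Agent.Results.MP_4eb8d9_nt.AlongRecurrences
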