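import Pool.Agent.Q138.PS.WO
import Pool.Agent.Q138.PS.WK
import Pool.Agent.Q138.AJ.R4eb8d9a
import Pool.Agent.Q138.AJ.R4eb8d9b

/-!
# Lower bounds for `|a_1 ^ b_1 ⋯ a_m ^ b_m - 1|`: products and bases which are close to given points

(1) Let `Y` be a metric space, `p : ℚ → Y` any map (for instance `ℚ → ℚ_ℓ`), `H` the height and `τ > 0`. There is a set `Z ⊆ Y`
of Hausdorff dimension at most `1 / (2 τ)` such that for `z ∈ Y` outside `Z` and all `c`, all but finitely many of the rational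
numbers `L` with `dist (p L, z) ≤ c H(L) ^ (-τ)` satisfy the Lang-Waldschmidt inequality in ALL their representations
`L = a_1 ^ b_1 ⋯ a_m ^ b_m` (any `m`), with the constant `C = 1` and even with `ε = 0`.

(2) Let `m ≥ 1`, `κ ≥ 0` and `β > m / (m + 1)`. There is `E` such that for each `θ > 0` there is a set `Z ⊆ ℝ ^ m` of Hausdorff
dimension at most `(m + β) / θ` with the following property: for `z` outside `Z` and all large `N`, ALL `m`-tuples `a` of integers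
in `[N, 2 N]` with `|a_j / N - z_j| ≤ N ^ (-θ)` satisfy `|a_1 ^ b_1 ⋯ a_m ^ b_m - 1| > N ^ (-E)` for ALL integers `b_j`, not all
`0`, with `|b_j| ≤ N ^ κ`. For Dirichlet's exponent `θ = 1 + 1 / m` and `β < 1` the dimension is less than `m`.
-/

set_option autoImplicit false

namespace Pool.Agent.Results.MP_4eb8d9_nt.ProductsNearGivenPoints

open Pool.Agent.Q138.PS Filter

/-- the height of a rational number -/
def hgt (L : ℚ) : ℕ := max L.num.natAbs L.den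

theorem one_le_hgt (L : ℚ) : (1 : ℝ) ≤ hgt L := by
  have : 1 ≤ hgt L := le_max_of_le_right L.den_pos
  exact_mod_cast this

theorem count (ε : ℝ) (hε : 0 < ε) : ∃ C : ℝ, ∀ T : ℝ, 1 ≤ T →
    {L : ℚ | L ∈ {L : ℚ | L ≠ 1 ∧ Pool.Agent.Q138.AJ.R4eb8d9a.Fails L} ∧ (hgt L : ℝ) ≤ T}.Finite ∧
    (({L : ℚ | L ∈ {L : ℚ | L ≠ 1 ∧ Pool.Agent.Q138.AJ.R4eb8d9a.Fails L} ∧ (hgt L : ℝ) ≤ T}).ncard : ℝ) ≤
      C * T ^ (1 / 2 + ε) := by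
  obtain ⟨C, hC⟩ := Pool.Agent.Q138.AJ.R4eb8d9a.result ε hε
  refine ⟨|C|, fun T hT => ?_⟩
  have hfl : 1 ≤ ⌊T⌋₊ := (Nat.one_le_floor_iff T).2 hT
  obtain ⟨h1, h2⟩ := hC _ hfl
  have hsub : {L : ℚ | L ∈ {L : ℚ | L ≠ 1 ∧ Pool.Agent.Q138.AJ.R4eb8d9a.Fails L} ∧ (hgt L : ℝ) ≤ T} ⊆
      Pool.Agent.Q138.AJ.R4eb8d9a.Exceptional ⌊T⌋₊ := by
    rintro L ⟨⟨h3, h4⟩, h5⟩
    have h6 : hgt L ≤ ⌊T⌋₊ := Nat.le_floor h5
    exact ⟨h3, (le_max_left _ _).trans h6, (le_max_right _ _).trans h6, h4⟩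
  refine ⟨h1.subset hsub, ?_⟩
  have h3 : (({L : ℚ | L ∈ {L : ℚ | L ≠ 1 ∧ Pool.Agent.Q138.AJ.R4eb8d9a.Fails L} ∧ (hgt L : ℝ) ≤ T}).ncard : ℝ) ≤
      (Pool.Agent.Q138.AJ.R4eb8d9a.Exceptional ⌊T⌋₊).ncard := by
    exact_mod_cast Set.ncard_le_ncard hsub h1
  have h4 : ((⌊T⌋₊ : ℕ) : ℝ) ^ (1 / 2 + ε) ≤ T ^ (1 / 2 + ε) :=
    Real.rpow_le_rpow (Nat.cast_nonneg _) (Nat.floor_le (by linarith)) (by positivity)
  calc (({L : ℚ | L ∈ {L : ℚ | L ≠ 1 ∧ Pool.Agent.Q138.AJ.R4eb8d9a.Fails L} ∧ (hgt L : ℝ) ≤ T}).ncard : ℝ) ≤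
        C * ((⌊T⌋₊ : ℕ) : ℝ) ^ (1 / 2 + ε) := h3.trans h2
    _ ≤ |C| * ((⌊T⌋₊ : ℕ) : ℝ) ^ (1 / 2 + ε) :=
        mul_le_mul_of_nonneg_right (le_abs_self C) (Real.rpow_nonneg (Nat.cast_nonneg _) _)
    _ ≤ |C| * T ^ (1 / 2 + ε) := mul_le_mul_of_nonneg_left h4 (abs_nonneg C)

/-- **Theorem.** -/
theorem result :
    (∀ (Y : Type) [MetricSpace Y] [MeasurableSpace Y] [BorelSpace Y] (p : ℚ → Y) (τ : ℝ), 0 < τ →
      ∃ Z : Set Y, dimH Z ≤ ENNReal.ofReal (1 / (2 * τ)) ∧ ∀ z, z ∉ Z → ∀ c : ℝ,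
        {L : ℚ | dist (p L) z ≤ c * (hgt L : ℝ) ^ (-τ) ∧ L ≠ 1 ∧
          ∃ (η : ℝ) (m : ℕ) (a b : Fin m → ℤ), 0 ≤ η ∧ (∀ i, a i ≠ 0) ∧ (∀ i, b i ≠ 0) ∧
            ∏ i, ((a i : ℚ) ^ (b i)) = L ∧
            |(L : ℝ) - 1| < ((Finset.univ.sup fun i => (b i).natAbs : ℕ) : ℝ) /
              ((∏ i, |((b i : ℤ) : ℝ)|) * (∏ i, |((a i : ℤ) : ℝ)|)) ^ (1 + η)}.Finite) ∧
    (∀ (m : ℕ) (κ β : ℝ), 1 ≤ m → 0 ≤ κ → (m : ℝ) / ((m : ℝ) + 1) < β → ∃ E : ℝ, ∀ θ : ℝ, 0 < θ →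
      ∃ Z : Set (Fin m → ℝ), dimH Z ≤ ENNReal.ofReal ((m + β) / θ) ∧ ∀ z, z ∉ Z → ∀ᶠ N : ℕ in atTop,
        ∀ a : Fin m → ℕ, (∀ j, N ≤ a j ∧ a j ≤ 2 * N) → (∀ j, |(a j : ℝ) / N - z j| ≤ (N : ℝ) ^ (-θ)) →
          ∀ b : Fin m → ℤ, b ≠ 0 → (∀ j, |(b j : ℝ)| ≤ (N : ℝ) ^ κ) →
            (N : ℝ) ^ (-E) < |∏ j, (a j : ℝ) ^ (b j) - 1|) := by
  refine ⟨?_, ?_⟩
  · intro Y _ _ _ p τ hτ
    obtain ⟨Z, hZ, hz⟩ := fin_lim p _ (fun L : ℚ => (hgt L : ℝ)) one_le_hgt (1 / 2) (by norm_num) count τ hτ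
    refine ⟨Z, hZ.trans (le_of_eq (by rw [div_div])), fun z hzZ c => (hz z hzZ c).subset ?_⟩
    rintro L ⟨h1, h2, h3⟩
    exact ⟨⟨h2, h3⟩, h1⟩
  · intro m κ β hm hκ hβ
    obtain ⟨E, C, h⟩ := Pool.Agent.Q138.AJ.R4eb8d9b.result m hm κ β hκ hβ
    refine ⟨E, fun θ hθ => ?_⟩
    have hβ0 : 0 < β := lt_of_le_of_lt (by positivity) hβ
    obtain ⟨Z, hZ, hz⟩ := far_den (n := m)
      (fun N => (fun a : Fin m → ℕ => fun j => (a j : ℤ)) '' Pool.Agent.Q138.AJ.R4eb8d9b.Exceptional m N κ E) θ (m + β) C hθ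
      (by positivity) (fun N hN => by
        obtain ⟨h1, h2⟩ := h N hN
        refine ⟨h1.image _, ?_⟩
        have h3 : (((fun a : Fin m → ℕ => fun j => (a j : ℤ)) '' Pool.Agent.Q138.AJ.R4eb8d9b.Exceptional m N κ E).ncard : ℝ) ≤
            (Pool.Agent.Q138.AJ.R4eb8d9b.Exceptional m N κ E).ncard := by
          exact_mod_cast Set.ncard_image_le h1
        refine h3.trans (h2.trans (le_of_eq ?_))
        congr 2
        ring)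
    refine ⟨Z, hZ, fun z hzZ => ?_⟩
    filter_upwards [hz z hzZ] with N hN a ha hnear b hb hbN
    by_contra hcon
    push Not at hcon
    obtain ⟨j, hj⟩ := hN _ ⟨a, ⟨ha, b, hb, hbN, hcon⟩, rfl⟩
    have := hnear j
    push_cast at hj
    linarith

end Pool.Agent.Results.MP_4eb8d9_nt.ProductsNearGivenPoints
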