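import Pool.Agent.Q138.PS.XV
import Pool.Agent.Q138.AJ.R4eb8d9a

/-!
# Lower bounds for `|a_1 ^ b_1 ⋯ a_m ^ b_m - 1|` for the products with a numerator or denominator near the powers of real numbers

Let `l < 1`. There is a set `E` of real numbers of Hausdorff dimension at most `1 / (2 (1 - l))` such that for every real number
`α > 1` outside `E`, all real algebraic `c > 0`, all integers `j`, all real `D` and all large `n`: for EVERY integer `t ≥ 1` with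
`|t - c n ^ j α ^ n| ≤ D (c n ^ j α ^ n) ^ l` and every rational number `L ≠ 1` with numerator `± t` or denominator `t` the
Lang-Waldschmidt inequality `|a_1 ^ b_1 ⋯ a_m ^ b_m - 1| ≥ B / (|b_1| ⋯ |b_m| |a_1| ⋯ |a_m|) ^ (1 + η)`, `B = max |b_i|`, holds for
ALL representations `L = a_1 ^ b_1 ⋯ a_m ^ b_m` by nonzero integers (any `m`) and all `η ≥ 0`.
-/

set_option autoImplicit false

namespace Pool.Agent.Results.MP_4eb8d9_nt.ProductsNearPowers

open Filter Topology Finset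
open Pool.Agent.Q138.PS

/-- the Lang-Waldschmidt inequality with the constant `C = 1` holds for all the representations of the rational number `L` as a
product of powers of nonzero integers with nonzero exponents -/
def Holds (L : ℚ) : Prop :=
  ∀ (η : ℝ) (m : ℕ) (a b : Fin m → ℤ), 0 ≤ η → (∀ i, a i ≠ 0) → (∀ i, b i ≠ 0) → ∏ i, ((a i : ℚ) ^ (b i)) = L →
    ((univ.sup fun i => (b i).natAbs : ℕ) : ℝ) / ((∏ i, |((b i : ℤ) : ℝ)|) * (∏ i, |((a i : ℤ) : ℝ)|)) ^ (1 + η) ≤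
      |(L : ℝ) - 1|

theorem rad_two {n : ℕ} (h0 : n ≠ 0) (h1 : n ≠ 1) : 2 ≤ Pool.Agent.H785R2.ABC.rad n := by
  obtain ⟨p, hp, hpn⟩ := Nat.exists_prime_and_dvd h1
  unfold Pool.Agent.H785R2.ABC.rad
  have hmem : p ∈ n.primeFactors := Nat.mem_primeFactors.2 ⟨hp, hpn, h0⟩
  have h2 : p ∣ ∏ q ∈ n.primeFactors, q := dvd_prod_of_mem _ hmem
  exact hp.two_le.trans (Nat.le_of_dvd (prod_pos fun q hq => (Nat.prime_of_mem_primeFactors hq).pos) h2)

/-- the numerator and the denominator of an exception are comparable -/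
theorem comparable {L : ℚ} (hL : L ≠ 1) (h : ¬ Holds L) :
    L.num.natAbs ≤ 2 * L.den ∧ L.den ≤ 2 * L.num.natAbs ∧ Pool.Agent.Q138.AJ.R4eb8d9a.Fails L := by
  unfold Holds at h
  push Not at h
  obtain ⟨η, m, a, b, hη, ha, hb, hab, hv⟩ := h
  have key := Pool.Agent.H705R2.LW.key_ineq a b ha hb L hab η hη hv
  have hL0 : L ≠ 0 := by
    rw [← hab]
    exact prod_ne_zero_iff.mpr fun i _ => zpow_ne_zero _ (by exact_mod_cast ha i)
  have hnum : L.num ≠ 0 := Rat.num_ne_zero.2 hL0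
  have hden := L.den_pos
  have hn1 : 1 ≤ L.num.natAbs := Int.natAbs_pos.2 hnum
  have hne : L.num ≠ L.den := fun h2 => hL (by
    have h3 : L = L.num / L.den := (Rat.num_div_den L).symm
    rw [h2] at h3
    rw [h3]
    have : (L.den : ℚ) ≠ 0 := by exact_mod_cast hden.ne'
    simp)
  have hd1 : 1 ≤ (L.num - L.den).natAbs := Int.natAbs_pos.2 (sub_ne_zero.2 hne)
  have hrad : 2 ≤ Pool.Agent.H785R2.ABC.rad (L.num.natAbs * L.den) := by
    refine rad_two (Nat.mul_ne_zero (by omega) (by omega)) fun h2 => ?_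
    have h3 : L.num.natAbs = 1 := Nat.eq_one_of_mul_eq_one_right h2
    have h4 : L.den = 1 := Nat.eq_one_of_mul_eq_one_left h2
    rw [h3, h4, Nat.one_mul] at key
    have h5 : Pool.Agent.H785R2.ABC.rad 1 = 1 := by simp [Pool.Agent.H785R2.ABC.rad]
    rw [h5] at key
    omega
  have h2 : (L.num - L.den).natAbs * 2 < L.den := lt_of_le_of_lt (Nat.mul_le_mul_left _ hrad) key
  refine ⟨by omega, by omega, η, m, a, b, hη, ha, hb, hab, hv⟩

/-- `t` is the numerator (up to the sign) or the denominator of an exception -/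
def Bad (t : ℕ) : Prop := ∃ L : ℚ, L ≠ 1 ∧ ¬ Holds L ∧ (L.num.natAbs = t ∨ L.den = t)

theorem count (ε : ℝ) (hε : 0 < ε) : ∃ C : ℝ, ∀ Y : ℕ, 1 ≤ Y → cn Bad Y ≤ C * (Y : ℝ) ^ (1 / 2 + ε) := by
  classical
  obtain ⟨C, hC⟩ := Pool.Agent.Q138.AJ.R4eb8d9a.result ε hε
  refine ⟨2 * (|C| * 2 ^ (1 / 2 + ε)), fun Y hY => ?_⟩
  have hY0 : (0 : ℝ) < Y := by exact_mod_cast hY
  obtain ⟨h1, h2⟩ := hC (2 * Y) (by omega)
  set S : Finset ℚ := h1.toFinset with hS
  have hScard : (S.card : ℝ) ≤ |C| * 2 ^ (1 / 2 + ε) * (Y : ℝ) ^ (1 / 2 + ε) := by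
    rw [hS, ← Set.ncard_eq_toFinset_card _ h1]
    refine h2.trans ?_
    have e : ((2 * Y : ℕ) : ℝ) ^ (1 / 2 + ε) = 2 ^ (1 / 2 + ε) * (Y : ℝ) ^ (1 / 2 + ε) := by
      push_cast
      exact Real.mul_rpow (by norm_num) hY0.le
    rw [e, mul_assoc]
    exact mul_le_mul_of_nonneg_right (le_abs_self C) (by positivity)
  have hsub : {n : ℕ | 1 ≤ n ∧ n ≤ Y ∧ Bad n} ⊆ ((S.image (fun L : ℚ => L.num.natAbs) ∪ S.image (fun L : ℚ => L.den) : Finset ℕ) :
      Set ℕ) := by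
    rintro t ⟨-, ht, L, hL1, hL2, hL3⟩
    obtain ⟨k1, k2, k3⟩ := comparable hL1 hL2
    have hmem : L ∈ S := by
      rw [hS, Set.Finite.mem_toFinset]
      exact ⟨hL1, by omega, by omega, k3⟩
    rw [coe_union, coe_image, coe_image]
    rcases hL3 with h | h
    · exact Or.inl ⟨L, hmem, h⟩
    · exact Or.inr ⟨L, hmem, h⟩
  have h3 : {n : ℕ | 1 ≤ n ∧ n ≤ Y ∧ Bad n}.ncard ≤ S.card + S.card := by
    refine (Set.ncard_le_ncard hsub (Finset.finite_toSet _)).trans ?_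
    rw [Set.ncard_coe_finset]
    exact (card_union_le _ _).trans (Nat.add_le_add card_image_le card_image_le)
  rw [cn_ncard]
  have h4 : (({n : ℕ | 1 ≤ n ∧ n ≤ Y ∧ Bad n}.ncard : ℕ) : ℝ) ≤ (S.card : ℝ) + S.card := by exact_mod_cast h3
  linarith

/-- **Theorem.** -/
theorem result (l : ℝ) (hl : l < 1) :
    ∃ E : Set ℝ, dimH E ≤ ENNReal.ofReal (1 / 2 / (1 - l)) ∧ ∀ α : ℝ, 1 < α → α ∉ E → ∀ c : ℝ, 0 < c →
      IsAlgebraic ℚ c → ∀ (j : ℤ) (D : ℝ), ∀ᶠ n : ℕ in atTop, ∀ t : ℕ, 1 ≤ t → NearPow α c j D l n t →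
        ∀ L : ℚ, L ≠ 1 → (L.num.natAbs = t ∨ L.den = t) → Holds L := by
  obtain ⟨E, hE, hg⟩ := pow_alg_one {t | 1 ≤ t ∧ Bad t} (1 / 2) l (by norm_num) hl (fun ε hε => by
    obtain ⟨C, hC⟩ := count ε hε
    exact ⟨|C|, fun T hT => cn_pow (by positivity) hC T hT⟩)
  refine ⟨E, hE, fun α hα hαE c hc hca j D => ?_⟩
  filter_upwards [hg α hα hαE c hc hca j D] with n hn t ht hnear L hL1 hL2
  by_contra h
  exact hn t hnear ⟨ht, L, hL1, h, hL2⟩

end Pool.Agent.Results.MP_4eb8d9_nt.ProductsNearPowers
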