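import Pool.Agent.Q84.NX.Fam3
import Pool.Agent.Results.MP_4eb8d9_nt.FewExceptions

/-!
# The Lang-Waldschmidt inequality for all products related to the primes of a string

Let `0 < A < 2`. There is `c > 0`, for all `κ > 0` and `m` there is `c' > 0` and for every `Z` a number `D` with the
following property. For every large `X` there is a set `S` of at most `(log X) ^ (49 / 50)` primes, all larger than `Z`,
such that for EVERY function `f` with values `1` and `-1` on the primes at least `X ^ (1 - κ)` integers `n`,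
`X < n ≤ 3X`, satisfy: the interval `[n, n + D]` contains at least `m` primes, and for every prime `p` in it

* the Legendre symbol `(p / q)` is `f q` for all odd primes `q ≤ c' log X` outside `S`;
* the Lang-Waldschmidt inequality, with the constant `1` and any exponent `1 + η`, `η ≥ 0`, holds for ALL products
  `L = a_1 ^ b_1 ... a_s ^ b_s ≠ 1` of powers of nonzero integers (any number `s` of factors) whose value `L = P / Q`, in
  lowest terms, has `|P|, Q ≤ p ^ A` and for which some divisor `r` of `P Q (P - Q)` is within `p ^ c` of a positive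
  multiple of `p` (for instance: `p` divides `P` or `Q`).

Method: the starting result `FewExceptions` counts the exceptional `L`; the divisor bound; few primes divide a number near
a divisor of an exceptional product (`Q84/NX/Core`, `Q84/NX/TriJ`); the Maynard-Tao theorem relative to a modulus which is
a small power of `X`, in the form that it avoids arbitrary exceptional sets of size `X ^ (1 - η)` (`Q84/MB/E1-E4`), gives
the strings.
-/

set_option autoImplicit false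

open scoped Classical

namespace Pool.Agent.Results.MP_4eb8d9_nt.StringsOfPrimes

open Finset Filter
open Pool.Agent.Results.MP_4eb8d9_nt.FewExceptions (Fails Exceptional)

/-- the Lang-Waldschmidt inequality with the constant `1` and any `η ≥ 0` holds for all products `L ≠ 1` of integer powers
of nonzero integers, `L = P / Q` in lowest terms with `|P|, Q ≤ p ^ A`, for which `P Q (P - Q)` has a divisor `r` within
`p ^ c` of a positive multiple of `p` -/
def Fine (A c : ℝ) (p : ℕ) : Prop :=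
  ∀ (s : ℕ) (a b : Fin s → ℤ) (η : ℝ) (L : ℚ) (k r : ℕ), (∀ i, a i ≠ 0) → (∀ i, b i ≠ 0) → 0 ≤ η →
    ∏ i, ((a i : ℚ) ^ (b i)) = L → L ≠ 1 → (L.num.natAbs : ℝ) ≤ (p : ℝ) ^ A → (L.den : ℝ) ≤ (p : ℝ) ^ A →
    1 ≤ k → |(r : ℝ) - k * p| ≤ (p : ℝ) ^ c → r ∣ L.num.natAbs * L.den * (L.num - L.den).natAbs →
    ((univ.sup fun i => (b i).natAbs : ℕ) : ℝ) /
      ((∏ i, |((b i : ℤ) : ℝ)|) * (∏ i, |((a i : ℤ) : ℝ)|)) ^ (1 + η) ≤ |(L : ℝ) - 1|

/-- **Theorem.** -/
theorem result (A : ℝ) (hA : 0 < A) (hA1 : A < 2) : ∃ c : ℝ, 0 < c ∧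
    ∀ κ : ℝ, 0 < κ → ∀ m : ℕ, ∃ c' : ℝ, 0 < c' ∧
    ∀ Z : ℕ, ∃ D : ℕ, ∃ X₀ : ℝ, ∀ X : ℝ, X₀ ≤ X →
    ∃ S : Finset ℕ, (∀ q ∈ S, q.Prime ∧ Z < q) ∧ (S.card : ℝ) ≤ (Real.log X) ^ (49 / 50 : ℝ) ∧
    ∀ f : ℕ → ℤ, (∀ q, f q = 1 ∨ f q = -1) →
      X ^ (1 - κ) ≤ (((Icc 1 ⌊3 * X⌋₊).filter fun n : ℕ => X < n ∧
        m ≤ ((Icc n (n + D)).filter Nat.Prime).card ∧
        ∀ p ∈ Icc n (n + D), p.Prime → Fine A c p ∧
          ∀ q : ℕ, q.Prime → q ≠ 2 → (q : ℝ) ≤ c' * Real.log X → q ∉ S → jacobiSym p q = f q).card : ℝ) := by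
  obtain ⟨ε, hε⟩ : ∃ ε, ε = (2 - A) / (4 * A) := ⟨_, rfl⟩
  have hε0 : 0 < ε := by rw [hε]; exact div_pos (by linarith) (by linarith)
  have hAε : A * (1 / 2 + ε) < 1 := by
    have h1 : A * ε = (2 - A) / 4 := by
      rw [hε]
      field_simp
    rw [mul_add, h1]
    linarith
  obtain ⟨C, hC⟩ := FewExceptions.result ε hε0
  obtain ⟨E, hE⟩ : ∃ E : ℝ → Set ℚ, E = fun B : ℝ =>
    {L : ℚ | L ≠ 1 ∧ (L.num.natAbs : ℝ) ≤ B ∧ (L.den : ℝ) ≤ B ∧ Fails L} := ⟨_, rfl⟩
  have hmono : ∀ B B' : ℝ, B ≤ B' → E B ⊆ E B' := by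
    intro B B' hBB L hL
    rw [hE] at hL ⊢
    exact ⟨hL.1, hL.2.1.trans hBB, hL.2.2.1.trans hBB, hL.2.2.2⟩
  have hne : ∀ L : ℚ, Fails L → L ≠ 0 := by
    rintro L ⟨η, s, a, b, -, ha, -, hL, -⟩
    rw [← hL]
    exact prod_ne_zero_iff.mpr fun i _ => zpow_ne_zero _ (by exact_mod_cast ha i)
  have hsize : ∀ B : ℝ, 2 ≤ B → ∀ L ∈ E B, 1 ≤ L.num.natAbs * L.den * (L.num - L.den).natAbs ∧
      ((L.num.natAbs * L.den * (L.num - L.den).natAbs : ℕ) : ℝ) ≤ B ^ 4 := by
    intro B hB L hL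
    rw [hE] at hL
    obtain ⟨h1, h2, h3, h4⟩ := hL
    have hL0 := hne L h4
    have hnum : L.num ≠ 0 := Rat.num_ne_zero.2 hL0
    have hnd : L.num - L.den ≠ 0 := by
      intro h
      apply h1
      rw [← Rat.num_div_den L, sub_eq_zero.1 h, Int.cast_natCast]
      exact div_self (by exact_mod_cast L.den_nz)
    have hden : 0 < L.den := L.den_pos
    refine ⟨Nat.mul_pos (Nat.mul_pos (Int.natAbs_pos.2 hnum) hden) (Int.natAbs_pos.2 hnd), ?_⟩
    have h5 : ((L.num - L.den).natAbs : ℝ) ≤ B * B := by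
      have h6 : (L.num - L.den).natAbs ≤ L.num.natAbs + L.den := by
        have := Int.natAbs_sub_le L.num L.den
        rwa [Int.natAbs_natCast] at this
      have h7 : ((L.num - L.den).natAbs : ℝ) ≤ (L.num.natAbs : ℝ) + L.den := by exact_mod_cast h6
      nlinarith
    push_cast
    calc (L.num.natAbs : ℝ) * L.den * (L.num - L.den).natAbs ≤ B * B * (B * B) := by gcongr
      _ = B ^ 4 := by ring
  have hcount : ∀ B : ℝ, 1 ≤ B → (E B).Finite ∧ ((E B).ncard : ℝ) ≤ |C| * B ^ (1 / 2 + ε) := by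
    intro B hB
    have h1 : E B = Exceptional ⌊B⌋₊ := by
      rw [hE]
      ext L
      constructor
      · rintro ⟨h1, h2, h3, h4⟩
        exact ⟨h1, Nat.le_floor h2, Nat.le_floor h3, h4⟩
      · rintro ⟨h1, h2, h3, h4⟩
        exact ⟨h1, (Nat.le_floor_iff (by linarith)).1 h2, (Nat.le_floor_iff (by linarith)).1 h3, h4⟩
    have hfl : 1 ≤ ⌊B⌋₊ := Nat.le_floor (by exact_mod_cast hB)
    obtain ⟨h2, h3⟩ := hC ⌊B⌋₊ hfl
    rw [h1]
    refine ⟨h2, h3.trans ?_⟩
    apply mul_le_mul (le_abs_self C) _ (by positivity) (abs_nonneg _)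
    exact Real.rpow_le_rpow (Nat.cast_nonneg _) (Nat.floor_le (by linarith)) (by positivity)
  obtain ⟨c, hc, hc4, hmain⟩ := Pool.Agent.Q84.NX.obj_strings E hmono
    (fun L : ℚ => L.num.natAbs * L.den * (L.num - L.den).natAbs) 4 (by norm_num) 2 hsize A (1 / 2 + ε) |C| hA
    (by positivity) hAε hcount
  refine ⟨c, hc, ?_⟩
  have hF : ∀ p : ℕ, Pool.Agent.Q84.NX.NoDiv E (fun L : ℚ => L.num.natAbs * L.den * (L.num - L.den).natAbs) A c p ↔
      Fine A c p := by
    intro p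
    unfold Pool.Agent.Q84.NX.NoDiv Fine
    rw [hE]
    constructor
    · intro h s a b η L k r ha hb hη hL hL1 h2 h3 hk hkr hr
      by_contra hcon
      push Not at hcon
      exact h L ⟨hL1, h2, h3, η, s, a, b, hη, ha, hb, hL, hcon⟩ k r hk hkr hr
    · rintro h L ⟨hL1, h2, h3, η, s, a, b, hη, ha, hb, hL, hlt⟩ k r hk hkr hr
      exact absurd (h s a b η L k r ha hb hη hL hL1 h2 h3 hk hkr hr) (not_le.2 hlt)
  simp only [hF] at hmain
  exact hmain

end Pool.Agent.Results.MP_4eb8d9_nt.StringsOfPrimes
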